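import Mathlib
import Pool.Agent.W218.SI.Dense

/-!
Primes `|n² + a|` for constants `a` in intervals that are shorter than the constants by a power, and for
`n` in an arbitrary dense set of integers, or of primes, of minimal size: the right order of magnitude
for a positive proportion of the constants, simultaneously for several constants.
-/

set_option autoImplicit false

open Finset Real

namespace Pool.Agent.Results.MP_391708_nt.ConstantsInShortIntervals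

/-- the number of `n ∈ T` for which all `|n² + a_i|` are primes -/
def count {r : ℕ} (a : Fin r → ℤ) (T : Finset ℕ) : ℕ :=
  (T.filter (fun n : ℕ => ∀ i, ((n : ℤ) ^ 2 + a i).natAbs.Prime)).card

/-- the vectors `a` of integers with `X_i < |a_i| ≤ X_i + H_i` and with the signs `σ_i` -/
def box {r : ℕ} (σ : Fin r → ℤ) (X H : Fin r → ℕ) : Finset (Fin r → ℤ) :=
  Fintype.piFinset fun i => (Ioc (X i) (X i + H i)).image (fun b : ℕ => σ i * (b : ℤ))

/-- the vectors of the box for which the number of `n ∈ T` with all `|n² + a_i|` prime has the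
expected order of magnitude, with the constant `κ` -/
noncomputable def good {r : ℕ} (κ : ℝ) (σ : Fin r → ℤ) (X H : Fin r → ℕ) (T : Finset ℕ) :
    Finset (Fin r → ℤ) :=
  (box σ X H).filter (fun a =>
    κ * T.card / ∏ i, log (X i) ≤ count a T ∧ κ * count a T ≤ T.card / ∏ i, log (X i))

open Pool.Agent.W218.SI Pool.Agent.W218.PF

lemma count_eq {r : ℕ} {σ : Fin r → ℤ} (hσ : ∀ i, σ i = 1 ∨ σ i = -1) {X H : Fin r → ℕ} {x : ℕ}
    (hx : ∀ i, 2 * x ^ 2 ≤ X i) {b : Fin r → ℕ} (hb : ∀ i, X i < b i) {T : Finset ℕ}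
    (hT : T ⊆ Icc 1 x) :
    count (fun i => σ i * (b i : ℤ)) T = primeS (mon σ (fun _ => 2)) b T := by
  unfold count primeS
  congr 1
  apply filter_congr
  intro n hn
  have hnx := (mem_Icc.1 (hT hn)).2
  have key : ∀ i, ((n : ℤ) ^ 2 + σ i * (b i : ℤ)).natAbs = (mon σ (fun _ => 2) i n + b i).toNat := by
    intro i
    have h1 : n ^ 2 ≤ x ^ 2 := Nat.pow_le_pow_left hnx 2
    have h2 : n ^ 2 < b i := by have := hx i; have := hb i; omega
    have h3 : ((n : ℤ)) ^ 2 < b i := by exact_mod_cast h2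
    have h4 : (0 : ℤ) ≤ (n : ℤ) ^ 2 := sq_nonneg _
    show ((n : ℤ) ^ 2 + σ i * (b i : ℤ)).natAbs = (σ i * (n : ℤ) ^ 2 + b i).toNat
    rcases hσ i with h | h
    · rw [h, one_mul, one_mul]
      omega
    · rw [h]
      have e1 : (n : ℤ) ^ 2 + -1 * (b i : ℤ) = -((b i : ℤ) - (n : ℤ) ^ 2) := by ring
      have e2 : -1 * (n : ℤ) ^ 2 + (b i : ℤ) = (b i : ℤ) - (n : ℤ) ^ 2 := by ring
      rw [e1, e2, Int.natAbs_neg]
      omega
  simp only [key]

lemma card_good {r : ℕ} {κ : ℝ} {σ : Fin r → ℤ} (hσ : ∀ i, σ i = 1 ∨ σ i = -1) {X H : Fin r → ℕ} {x : ℕ}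
    (hx : ∀ i, 2 * x ^ 2 ≤ X i) {T : Finset ℕ} (hT : T ⊆ Icc 1 x) :
    ((Fintype.piFinset (fun i : Fin r => Ioc (X i) (X i + H i))).filter (fun b =>
      κ * T.card / (∏ i, log (X i)) ≤ primeS (mon σ (fun _ => 2)) b T ∧
      κ * primeS (mon σ (fun _ => 2)) b T ≤ T.card / (∏ i, log (X i)))).card ≤
    (good κ σ X H T).card := by
  apply card_le_card_of_injOn (fun b => fun i => σ i * (b i : ℤ))
  · intro b hb
    rw [mem_coe, mem_filter, Fintype.mem_piFinset] at hb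
    have h1 := count_eq hσ (H := H) hx (fun i => (mem_Ioc.1 (hb.1 i)).1) hT
    unfold good box
    rw [mem_coe, mem_filter, Fintype.mem_piFinset]
    refine ⟨fun i => mem_image.2 ⟨b i, hb.1 i, rfl⟩, ?_⟩
    rw [h1]
    exact hb.2
  · intro b _ b' _ h
    funext i
    have h1 := congrFun h i
    simp only at h1
    rcases hσ i with h2 | h2 <;> rw [h2] at h1 <;> omega

theorem result : ∃ δ : ℝ, 0 < δ ∧ δ < 1 ∧ ∀ r : ℕ, 1 ≤ r → ∀ c ρ : ℝ, 0 < c → 0 < ρ →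
    ∃ κ : ℝ, 0 < κ ∧ ∃ X₀ : ℕ, 4 ≤ X₀ ∧ ∀ σ : Fin r → ℤ, (∀ i, σ i = 1 ∨ σ i = -1) →
    ∀ X H : Fin r → ℕ, (∀ i, X₀ ≤ X i) → (∀ i, (X i : ℝ) ^ (1 - δ) ≤ H i) → (∀ i, H i ≤ X i) →
    ∀ x : ℕ, (∀ i, 2 * x ^ 2 ≤ X i) →
      (c * ∏ i, log (X i) ≤ x → ∀ T ⊆ Icc 1 x, ρ * x ≤ T.card →
        κ * ∏ i, (H i : ℝ) ≤ (good κ σ X H T).card) ∧
      (c * ∏ i, log (X i) ≤ x / log x → ∀ T ⊆ (Icc 1 x).filter Nat.Prime, ρ * (x / log x) ≤ T.card →
        κ * ∏ i, (H i : ℝ) ≤ (good κ σ X H T).card) := by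
  obtain ⟨δ₁, h₁, h₁', hI⟩ := shortI
  obtain ⟨δ₂, h₂, h₂', hP⟩ := shortP
  refine ⟨min δ₁ δ₂, lt_min h₁ h₂, lt_of_le_of_lt (min_le_left _ _) h₁', fun r hr c ρ hc hρ => ?_⟩
  -- the finitely many sign vectors
  have hS : (Set.Finite {σ : Fin r → ℤ | ∀ i, σ i = 1 ∨ σ i = -1}) := by
    have : {σ : Fin r → ℤ | ∀ i, σ i = 1 ∨ σ i = -1} ⊆
        ↑(Fintype.piFinset (fun _ : Fin r => ({1, -1} : Finset ℤ))) := by
      intro σ hσ
      rw [mem_coe, Fintype.mem_piFinset]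
      intro i
      rcases hσ i with h | h <;> simp [h]
    exact (Finset.finite_toSet _).subset this
  have hone : ∀ σ : Fin r → ℤ, (∀ i, σ i = 1 ∨ σ i = -1) → ∃ κ : ℝ, 0 < κ ∧ ∃ X₀ : ℕ, 4 ≤ X₀ ∧
      ∀ X H : Fin r → ℕ, (∀ i, X₀ ≤ X i) → (∀ i, (X i : ℝ) ^ (1 - min δ₁ δ₂) ≤ H i) →
      (∀ i, H i ≤ X i) → ∀ x : ℕ, (∀ i, 2 * x ^ 2 ≤ X i) →
      (c * ∏ i, log (X i) ≤ x → ∀ T ⊆ Icc 1 x, ρ * x ≤ T.card →
        κ * ∏ i, (H i : ℝ) ≤ (good κ σ X H T).card) ∧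
      (c * ∏ i, log (X i) ≤ x / log x → ∀ T ⊆ (Icc 1 x).filter Nat.Prime, ρ * (x / log x) ≤ T.card →
        κ * ∏ i, (H i : ℝ) ≤ (good κ σ X H T).card) := by
    intro σ hσ
    obtain ⟨κ₁, hκ₁, Y₁, hY₁, H1⟩ := hI r hr σ hσ (fun _ => 2) (fun _ => by norm_num) c ρ hc hρ
    obtain ⟨κ₂, hκ₂, Y₂, hY₂, H2⟩ := hP r hr σ hσ (fun _ => 2) (fun _ => by norm_num) c ρ hc hρ
    refine ⟨min κ₁ κ₂, lt_min hκ₁ hκ₂, max Y₁ Y₂, hY₁.trans (le_max_left _ _), ?_⟩
    intro X H hX hXH hHX x hx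
    have hX4 : ∀ i, 4 ≤ X i := fun i => (hY₁.trans (le_max_left _ _)).trans (hX i)
    have hXH1 : ∀ i, (X i : ℝ) ^ (1 - δ₁) ≤ H i := fun i =>
      le_trans (Real.rpow_le_rpow_of_exponent_le (by exact_mod_cast (by have := hX4 i; omega : 1 ≤ X i))
        (by have := min_le_left δ₁ δ₂; linarith)) (hXH i)
    have hXH2 : ∀ i, (X i : ℝ) ^ (1 - δ₂) ≤ H i := fun i =>
      le_trans (Real.rpow_le_rpow_of_exponent_le (by exact_mod_cast (by have := hX4 i; omega : 1 ≤ X i))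
        (by have := min_le_right δ₁ δ₂; linarith)) (hXH i)
    have hL : 0 < ∏ i, log (X i : ℝ) := prod_pos fun i _ => Real.log_pos (by
      exact_mod_cast (by have := hX4 i; omega : 1 < X i))
    have mono : ∀ κ' : ℝ, min κ₁ κ₂ ≤ κ' → ∀ T : Finset ℕ, T ⊆ Icc 1 x →
        κ' * ∏ i, (H i : ℝ) ≤
          ((((Fintype.piFinset (fun i : Fin r => Ioc (X i) (X i + H i))).filter (fun b =>
            κ' * T.card / (∏ i, log (X i)) ≤ primeS (mon σ (fun _ => 2)) b T ∧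
            κ' * primeS (mon σ (fun _ => 2)) b T ≤ T.card / (∏ i, log (X i)))).card : ℕ) : ℝ) →
        min κ₁ κ₂ * ∏ i, (H i : ℝ) ≤ (good (min κ₁ κ₂) σ X H T).card := by
      intro κ' hκ' T hT h
      have h0 : 0 ≤ ∏ i, (H i : ℝ) := prod_nonneg fun i _ => Nat.cast_nonneg _
      refine (mul_le_mul_of_nonneg_right hκ' h0).trans (h.trans ?_)
      refine le_trans ?_ (Nat.cast_le.2 (card_good (κ := min κ₁ κ₂) (H := H) hσ hx hT))
      apply Nat.cast_le.2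
      apply card_le_card
      intro b hb
      rw [mem_filter] at hb ⊢
      refine ⟨hb.1, le_trans ?_ hb.2.1, le_trans ?_ hb.2.2⟩
      · gcongr
      · gcongr
    refine ⟨fun hcx T hT hTc => ?_, fun hcx T hT hTc => ?_⟩
    · exact mono κ₁ (min_le_left _ _) T hT (H1 X H
        (fun i => (le_max_left _ _).trans (hX i)) hXH1 hHX x hcx hx T hT hTc)
    · exact mono κ₂ (min_le_right _ _) T (hT.trans (filter_subset _ _)) (H2 X H
        (fun i => (le_max_right _ _).trans (hX i)) hXH2 hHX x hcx hx T hT hTc)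
  choose! κ hκ X₀ hX₀ hmain using hone
  obtain ⟨S, hSm⟩ : ∃ S : Finset (Fin r → ℤ), ∀ σ, σ ∈ S ↔ ∀ i, σ i = 1 ∨ σ i = -1 :=
    ⟨hS.toFinset, fun σ => by rw [Set.Finite.mem_toFinset]; rfl⟩
  have hSne : S.Nonempty := ⟨fun _ => 1, (hSm _).2 fun _ => Or.inl rfl⟩
  refine ⟨S.inf' hSne κ, (Finset.lt_inf'_iff hSne).2 fun σ hσ => hκ σ ((hSm σ).1 hσ), S.sup X₀ + 4, by omega, ?_⟩
  intro σ hσ X H hX hXH hHX x hx
  have hm := (hSm σ).2 hσ
  have h1 : S.inf' hSne κ ≤ κ σ := Finset.inf'_le _ hm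
  have h2 : X₀ σ ≤ S.sup X₀ := Finset.le_sup hm
  have hX4 : ∀ i, 4 ≤ X i := fun i => by have := hX i; omega
  have hL : 0 < ∏ i, log (X i : ℝ) := prod_pos fun i _ => Real.log_pos (by
    exact_mod_cast (by have := hX4 i; omega : 1 < X i))
  have h3 := hmain σ hσ X H (fun i => by have := hX i; omega) hXH hHX x hx
  have mono : ∀ T : Finset ℕ, κ σ * ∏ i, (H i : ℝ) ≤ (good (κ σ) σ X H T).card →
      S.inf' hSne κ * ∏ i, (H i : ℝ) ≤ (good (S.inf' hSne κ) σ X H T).card := by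
    intro T h
    have h0 : 0 ≤ ∏ i, (H i : ℝ) := prod_nonneg fun i _ => Nat.cast_nonneg _
    refine (mul_le_mul_of_nonneg_right h1 h0).trans (h.trans ?_)
    apply Nat.cast_le.2
    apply card_le_card
    intro a ha
    unfold good at ha ⊢
    rw [mem_filter] at ha ⊢
    refine ⟨ha.1, le_trans ?_ ha.2.1, le_trans ?_ ha.2.2⟩
    · gcongr
    · gcongr
  exact ⟨fun hcx T hT hTc => mono T (h3.1 hcx T hT hTc), fun hcx T hT hTc => mono T (h3.2 hcx T hT hTc)⟩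

end Pool.Agent.Results.MP_391708_nt.ConstantsInShortIntervals
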