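import Pool.Agent.Y880.RS.G5b

/-!
# Values `n ^ 2 + a` in an arbitrary dense set of primes, at the terms of progressions with small differences

Let `k ≥ 2`, `δ > 0` and `0 < ε ≤ 1`.  For all large `X` and all `N` with `(log X) ^ B ≤ N ≤ X ^ (1 / 8)`, for every set
`T` of at least `δ N` integers of `[1, N]` and every set `P` of at least `δ X / log X` primes up to `X` a positive
proportion of the constants `a ≤ X` have the following property: there is a progression `n, n + r, …, n + (k - 1) r`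
of elements of `T` with `1 ≤ r ≤ N ^ ε (log X) ^ B` such that `n' ^ 2 + a` is a prime in `P` for every term `n'`.
-/

set_option autoImplicit false

open Finset Polynomial

namespace Pool.Agent.Results.MP_391708_nt.DensePrimesAtProgressions

/-- all the terms `n'` of the progression `n, n + r, …, n + (k - 1) r` lie in `T`, and `n' ^ 2 + a` lies in `P` -/
def Good (k : ℕ) (T P : Finset ℕ) (a n r : ℕ) : Prop :=
  ∀ j < k, n + j * r ∈ T ∧ (n + j * r) ^ 2 + a ∈ P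

open Classical in
theorem result (k : ℕ) (hk : 2 ≤ k) (δ ε : ℝ) (hδ : 0 < δ) (hε : 0 < ε) (hε1 : ε ≤ 1) :
    ∃ B : ℕ, ∃ c : ℝ, 0 < c ∧ ∃ X₀ : ℕ, ∀ X N : ℕ, X₀ ≤ X → Real.log X ^ B ≤ N → N ^ 8 ≤ X →
    ∀ T ⊆ Icc 1 N, δ * N ≤ T.card →
    ∀ P ⊆ Icc 1 X, (∀ p ∈ P, p.Prime) → δ * (X / Real.log X) ≤ P.card →
    c * X ≤ ((Icc 1 X).filter (fun a => ∃ n r : ℕ, 1 ≤ r ∧
      (r : ℝ) ≤ (N : ℝ) ^ ε * Real.log X ^ B ∧ Good k T P a n r)).card := by
  have hd : (X ^ 2 : ℤ[X]).natDegree = 2 := natDegree_X_pow 2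
  obtain ⟨B, c, hc, X₀, h⟩ := Pool.Agent.Y880.RS.G5.g5 (X ^ 2 : ℤ[X]) (by rw [hd]; norm_num) k hk δ ε hδ hε hε1
  refine ⟨B, c, hc, X₀, fun X N hX hN hNX T hT hTc P hP hPp hPc => ?_⟩
  rw [hd] at h
  obtain ⟨G, hG, hGc, hg⟩ := h X N hX hN hNX T hT hTc P hP hPp hPc
  refine hGc.trans ?_
  have : G.card ≤ ((Icc 1 X).filter (fun a => ∃ n r : ℕ, 1 ≤ r ∧
      (r : ℝ) ≤ (N : ℝ) ^ ε * Real.log X ^ B ∧ Good k T P a n r)).card := by
    apply card_le_card
    intro a ha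
    rw [mem_filter]
    obtain ⟨n, r, h1, h2, h3⟩ := hg a ha
    refine ⟨hG ha, n, r, h1, h2, fun j hj => ⟨(h3 j hj).1, ?_⟩⟩
    obtain ⟨p, hp, hpe⟩ := (h3 j hj).2
    have : p = (n + j * r) ^ 2 + a := by
      have e : (p : ℤ) = ((n + j * r : ℕ) : ℤ) ^ 2 + a := by
        rw [hpe, eval_pow, eval_X]
      exact_mod_cast e
    rw [← this]
    exact hp
  exact_mod_cast this

end Pool.Agent.Results.MP_391708_nt.DensePrimesAtProgressions
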