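import Pool.Agent.TH882.K4
import Pool.Agent.TH882.J5
import Pool.Agent.TH882.Y4

/-!
# Prime values of `n² + a_1, ..., n² + a_r` at isolated primes `n`, and at primes `n` with prescribed index

For almost all shifts `a_j` the polynomials are simultaneously prime for the expected number (up to a
constant) of primes `n ≤ x` which have no other prime at distance at most `L log x`, and for the expected
number of primes `n` the index `π(n)` of which lies in a given syndetic set.
The theorem `Pool.Agent.TH882.KS.sys_most` of the starting library on systems at the primes of a set which is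
dense in most residue classes is used; new is its combination with the isolated primes
(`Pool.Agent.TH882.IS.isoD`) and with the primes with prescribed index (`Pool.Agent.TH882.HY.IS_most`).
-/

set_option autoImplicit false

open Finset Filter Topology

namespace Pool.Agent.Results.MP_391708_nt.IsolatedPrimeArguments

/-- The prime `p` has no other prime at distance at most `R`. -/
def Isolated (R : ℝ) (p : ℕ) : Prop := ∀ q : ℕ, q.Prime → |(q : ℝ) - p| ≤ R → q = p

/-- Every block of `M` consecutive positive integers meets `K`. -/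
def Syndetic (M : ℕ) (K : Set ℕ) : Prop := ∀ k : ℕ, 1 ≤ k → ∃ i : ℕ, i < M ∧ k + i ∈ K

/-- No local obstruction for `n, n² + a_1, ..., n² + a_r`: for every prime `l` there is an integer `n`
such that `l` divides none of these numbers. -/
def Admissible {r : ℕ} (a : Fin r → ℕ) : Prop :=
  ∀ l : ℕ, l.Prime → ∃ n : ℤ, ¬ (l : ℤ) ∣ n ∧ ∀ j, ¬ (l : ℤ) ∣ n ^ 2 + a j

/-- The number of the primes `n ≤ x` with the property `P n` for which all `n² + a_j` are prime. -/
noncomputable def count {r : ℕ} (P : ℕ → Prop) (a : Fin r → ℕ) (x : ℕ) : ℕ :=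
  {n : ℕ | n ≤ x ∧ n.Prime ∧ P n ∧ ∀ j, (n ^ 2 + a j).Prime}.ncard

/-- The vectors `a` with `1 ≤ a_j ≤ K x²` without local obstruction, but with a count smaller than
`c x / (log x) ^ (r + 1)`. -/
def exceptions {r : ℕ} (P : ℕ → Prop) (c : ℝ) (K x : ℕ) : Set (Fin r → ℕ) :=
  {a | (∀ j, 1 ≤ a j ∧ a j ≤ K * x ^ 2) ∧ Admissible a ∧
    (count P a x : ℝ) < c * (x / Real.log x ^ (r + 1))}

open Pool.Agent.H361R2.PP in
open Polynomial in
theorem general (r K : ℕ) (κ : ℝ) (hκ : 0 < κ) (A : ℕ → ℕ → Finset ℕ)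
    (hA : Pool.Agent.TH882.JS.MostDense A) (P : ℕ → ℕ → Prop) (x₁ : ℕ)
    (hP : ∀ x : ℕ, x₁ ≤ x → ∀ n : ℕ, x / 3 ≤ n → n < 2 * (x / 3) → n ∈ A (x / 3) (n % Wm (x / 3)) →
      n.Prime ∧ P x n) :
    ∃ c : ℝ, 0 < c ∧ ∀ᶠ x : ℕ in atTop,
      ((exceptions (r := r) (P x) c K x).ncard : ℝ) ≤ κ * ((x : ℝ) ^ 2) ^ r := by
  classical
  set g : Fin r → Polynomial ℤ := fun _ => Polynomial.X ^ 2 with hg
  have hgd : ∀ j, (g j).natDegree = 2 := fun j => by rw [hg]; exact natDegree_X_pow 2
  have hge : ∀ j, ∀ n : ℤ, (g j).eval n = n ^ 2 := by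
    intro j n
    rw [hg]
    simp only [eval_pow, eval_X]
  obtain ⟨δ, hδ, x₀, h⟩ := Pool.Agent.TH882.KS.sys_most g (fun j => by rw [hgd j]; norm_num)
    (fun j => by
      rw [hg]
      simp only
      rw [leadingCoeff_X_pow]
      norm_num) A hA K κ hκ
  refine ⟨δ, hδ, ?_⟩
  filter_upwards [eventually_ge_atTop (max x₀ (max x₁ 100))] with x hx
  have hx0 : x₀ ≤ x := by omega
  have hx1 : x₁ ≤ x := by omega
  have h1 := h x hx0
  have e0 : ∏ j, (x : ℝ) ^ (g j).natDegree = ((x : ℝ) ^ 2) ^ r := by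
    rw [prod_congr rfl fun j _ => by rw [hgd j]]
    rw [prod_const, card_univ, Fintype.card_fin]
  rw [e0] at h1
  refine le_trans ?_ h1
  rw [← Set.ncard_coe_finset]
  apply Nat.cast_le.2
  apply Set.ncard_le_ncard _ (finite_toSet _)
  rintro a ⟨ha1, ha2, ha3⟩
  rw [mem_coe, mem_filter, Fintype.mem_piFinset]
  refine ⟨fun j => ?_, ?_, lt_of_le_of_lt ?_ ha3⟩
  · rw [hgd j, mem_Icc]
    exact ha1 j
  · intro l hl
    obtain ⟨n, hn1, hn2⟩ := ha2 l hl
    refine ⟨n, hn1, fun j h => hn2 j ?_⟩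
    rw [one_mul, hge j n, add_comm] at h
    exact h
  · apply Nat.cast_le.2
    unfold count
    rw [← Set.ncard_coe_finset]
    apply Set.ncard_le_ncard
    · intro n hn
      unfold Pool.Agent.TH882.KS.SysA at hn
      rw [mem_coe, mem_filter, mem_Ico] at hn
      obtain ⟨⟨hn1, hn2⟩, hn3, hn4⟩ := hn
      obtain ⟨hp, hPn⟩ := hP x hx1 n hn1 hn2 hn3
      refine ⟨by omega, hp, hPn, fun j => ?_⟩
      have e1 := hn4 j
      rw [hge j, add_comm] at e1
      have e2 : ((n : ℤ) ^ 2 + (a j : ℤ)).toNat = n ^ 2 + a j := by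
        have : (n : ℤ) ^ 2 + (a j : ℤ) = ((n ^ 2 + a j : ℕ) : ℤ) := by push_cast; ring
        rw [this, Int.toNat_natCast]
      rwa [e2] at e1
    · apply (Set.finite_Iic x).subset
      rintro n ⟨hn, -⟩
      exact hn

/-- the isolated primes are dense in all classes -/
theorem IP_most (L : ℝ) (hL : 0 < L) :
    Pool.Agent.TH882.JS.MostDense (Pool.Agent.TH882.IS.IP L) := by
  classical
  refine ⟨?_, ?_⟩
  · intro X b n hn
    unfold Pool.Agent.TH882.IS.IP at hn
    rw [mem_filter] at hn ⊢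
    exact ⟨hn.1, hn.2.1⟩
  · intro η hη
    obtain ⟨c, hc, X₀, h⟩ := Pool.Agent.TH882.IS.isoD L hL
    refine ⟨c, hc, X₀, fun X hX => ?_⟩
    have h0 : (Pool.Agent.TH882.JS.Rd X).filter (fun b =>
        ((Pool.Agent.TH882.IS.IP L X b).card : ℝ) <
          c * (X / (Nat.totient (Pool.Agent.H361R2.PP.Wm X) * Real.log X))) = ∅ := by
      rw [filter_eq_empty_iff]
      intro b hb
      unfold Pool.Agent.TH882.JS.Rd at hb
      rw [mem_filter, mem_range] at hb
      exact not_lt.2 (h X hX b hb.1 hb.2)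
    rw [h0, card_empty, Nat.cast_zero]
    positivity

theorem isolated (r K : ℕ) (L κ : ℝ) (hL : 0 < L) (hκ : 0 < κ) : ∃ c : ℝ, 0 < c ∧
    ∀ᶠ x : ℕ in atTop,
      ((exceptions (r := r) (Isolated (L * Real.log x)) c K x).ncard : ℝ) ≤
        κ * ((x : ℝ) ^ 2) ^ r := by
  classical
  apply general r K κ hκ (Pool.Agent.TH882.IS.IP (2 * L)) (IP_most (2 * L) (by positivity))
    (fun x => Isolated (L * Real.log x)) 100
  intro x hx n hn1 hn2 hn
  unfold Pool.Agent.TH882.IS.IP at hn
  rw [mem_filter] at hn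
  obtain ⟨-, hp, hI⟩ := hn
  refine ⟨hp, fun q hq hqn => ?_⟩
  have h5 := abs_le.1 hqn
  have hX : (16 : ℝ) ≤ (x / 3 : ℕ) := by
    have : 16 ≤ x / 3 := by omega
    exact_mod_cast this
  have hx4 : (x : ℝ) ≤ (x / 3 : ℕ) ^ 2 := by
    have h6 : x ≤ 4 * (x / 3) := by omega
    have h7 : (x : ℝ) ≤ 4 * (x / 3 : ℕ) := by exact_mod_cast h6
    nlinarith
  have hx0 : (0 : ℝ) < x := by
    have : 0 < x := by omega
    exact_mod_cast this
  have hlog : Real.log x ≤ 2 * Real.log (x / 3 : ℕ) := by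
    have h8 := Real.log_le_log hx0 hx4
    rw [Real.log_pow] at h8
    push_cast at h8 ⊢
    linarith
  have hmul : L * Real.log x ≤ 2 * L * Real.log (x / 3 : ℕ) := by
    have := mul_le_mul_of_nonneg_left hlog hL.le
    linarith
  exact hI q hq (by linarith [h5.2]) (by linarith [h5.1])

theorem index (r K M : ℕ) (S : Set ℕ) (hS : Syndetic M S) (κ : ℝ) (hκ : 0 < κ) :
    ∃ c : ℝ, 0 < c ∧ ∀ᶠ x : ℕ in atTop,
      ((exceptions (r := r) (fun n => Nat.primeCounting n ∈ S) c K x).ncard : ℝ) ≤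
        κ * ((x : ℝ) ^ 2) ^ r := by
  classical
  have hM : 1 ≤ M := by
    obtain ⟨i, hi, -⟩ := hS 1 le_rfl
    omega
  apply general r K κ hκ (Pool.Agent.TH882.HY.IS S) (Pool.Agent.TH882.HY.IS_most M hM S hS)
    (fun _ n => Nat.primeCounting n ∈ S) 100
  intro x _ n _ _ hn
  unfold Pool.Agent.TH882.HY.IS at hn
  rw [mem_filter] at hn
  exact hn.2

/-- **Prime values of `n² + a_1, ..., n² + a_r` at isolated primes and at primes with prescribed index.**

Let `r`, `K` be natural numbers and `κ > 0`.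
1. For every `L > 0` there is `c > 0` such that for all large `x`, for all vectors `(a_1, ..., a_r)` of
integers `1 ≤ a_j ≤ K x²` without local obstruction, apart from at most `κ x ^ (2 r)` of them, there are at
least `c x / (log x) ^ (r + 1)` primes `n ≤ x` such that no other prime is at distance at most `L log x` from
`n` and all `n² + a_j` are prime.
2. The same holds with the primes `n` the index `π(n)` of which lies in `S` in place of the isolated primes,
for every set `S` which meets every block of `M` consecutive positive integers. -/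
theorem result (r K : ℕ) (κ : ℝ) (hκ : 0 < κ) :
    (∀ L : ℝ, 0 < L → ∃ c : ℝ, 0 < c ∧ ∀ᶠ x : ℕ in atTop,
      ((exceptions (r := r) (Isolated (L * Real.log x)) c K x).ncard : ℝ) ≤
        κ * ((x : ℝ) ^ 2) ^ r) ∧
    (∀ (M : ℕ) (S : Set ℕ), Syndetic M S → ∃ c : ℝ, 0 < c ∧ ∀ᶠ x : ℕ in atTop,
      ((exceptions (r := r) (fun n => Nat.primeCounting n ∈ S) c K x).ncard : ℝ) ≤
        κ * ((x : ℝ) ^ 2) ^ r) :=
  ⟨fun L hL => isolated r K L κ hL hκ, fun M S hS => index r K M S hS κ hκ⟩

end Pool.Agent.Results.MP_391708_nt.IsolatedPrimeArguments
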