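import Pool.Agent.V1137.Pm

/-!
For almost all integers `a`, positive or negative, the polynomial `n ^ 2 + a` has many prime values
at the multiples `n = m p`, `m ∈ {1, 2, 3, 6}`, of the primes `p` from any given set of primes which
meets all short clusters of primes.
-/

set_option autoImplicit false

open Finset Filter Topology

namespace Pool.Agent.Results.MP_391708_nt.UnavoidableArguments

/-- `P` meets all short clusters of primes: there are `M` and `ε > 0` such that, for all large `u`,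
every interval `[u, v]` with `v ≤ u + ε log u` which contains at least `M` primes contains a prime
which belongs to `P`. -/
def MeetsClusters (P : Set ℕ) : Prop := ∃ (M : ℕ) (ε : ℝ), 0 < ε ∧ ∃ u₀ : ℕ, ∀ u v : ℕ, u₀ ≤ u →
  (v : ℝ) ≤ u + ε * Real.log u → M ≤ ((Icc u v).filter Nat.Prime).card →
  ∃ p ∈ P, u ≤ p ∧ p ≤ v ∧ p.Prime

open Classical in
/-- The primes `p ≤ x` in `P` for which `|(m p) ^ 2 + a|` is prime. -/
noncomputable def arguments (P : Set ℕ) (m : ℕ) (a : ℤ) (x : ℕ) : Finset ℕ :=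
  (Icc 1 x).filter (fun p => p.Prime ∧ p ∈ P ∧ (((m : ℤ) * p) ^ 2 + a).natAbs.Prime)

open Classical in
/-- The integers `a` with `|a| ≤ K x ^ 2` such that for each `m ∈ {1, 2, 3, 6}` there are fewer than
`c x / (log x) ^ 2` arguments. -/
noncomputable def exceptions (P : Set ℕ) (c : ℝ) (K x : ℕ) : Finset ℤ :=
  (Icc (-((K * x ^ 2 : ℕ) : ℤ)) ((K * x ^ 2 : ℕ) : ℤ)).filter (fun a =>
    ∀ m ∈ ({1, 2, 3, 6} : Finset ℕ), ((arguments P m a x).card : ℝ) < c * (x / Real.log x ^ 2))

open Polynomial in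
/-- the polynomial `(m X) ^ 2` -/
noncomputable def gm (m : ℕ) : ℤ[X] := C ((m : ℤ) ^ 2) * X ^ 2

lemma gm_eval (m : ℕ) (n : ℤ) : (gm m).eval n = ((m : ℤ) * n) ^ 2 := by
  unfold gm
  simp only [Polynomial.eval_mul, Polynomial.eval_C, Polynomial.eval_pow, Polynomial.eval_X]
  ring

lemma gm_deg (m : ℕ) (hm : 0 < m) : (gm m).natDegree = 2 := by
  unfold gm
  apply Polynomial.natDegree_C_mul_X_pow
  have : (m : ℤ) ≠ 0 := by exact_mod_cast hm.ne'
  positivity

lemma gm_lead (m : ℕ) (hm : 0 < m) : 0 < (gm m).leadingCoeff := by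
  unfold gm
  rw [Polynomial.leadingCoeff_C_mul_X_pow]
  have : (0 : ℤ) < m := by exact_mod_cast hm
  positivity

/-- the multiplier for a given constant term -/
lemma exists_mult (s k : ℤ) (hs : s = 1 ∨ s = -1) : ∃ m ∈ ({1, 2, 3, 6} : Finset ℕ),
    ∀ l : ℕ, l.Prime → ∃ y : ℤ, ¬ (l : ℤ) ∣ y ∧ ¬ (l : ℤ) ∣ k + s * ((m : ℤ) * y) ^ 2 := by
  have key : ∀ m : ℕ, m ∈ ({1, 2, 3, 6} : Finset ℕ) → ¬ (2 : ℤ) ∣ k + s * (m : ℤ) ^ 2 →
      ¬ (3 : ℤ) ∣ k + s * (m : ℤ) ^ 2 →
      ∀ l : ℕ, l.Prime → ∃ y : ℤ, ¬ (l : ℤ) ∣ y ∧ ¬ (l : ℤ) ∣ k + s * ((m : ℤ) * y) ^ 2 := by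
    intro m hm h2 h3 l hl
    by_cases hl2 : l = 2
    · subst hl2
      refine ⟨1, by norm_num, ?_⟩
      rw [mul_one]
      exact_mod_cast h2
    by_cases hl3 : l = 3
    · subst hl3
      refine ⟨1, by norm_num, ?_⟩
      rw [mul_one]
      exact_mod_cast h3
    have hl5 : 5 ≤ l := by
      have := hl.two_le
      by_contra hc
      have : l = 4 := by omega
      subst this
      exact absurd hl (by norm_num)
    by_cases h1 : (l : ℤ) ∣ k + s * ((m : ℤ) * 1) ^ 2
    · refine ⟨2, ?_, ?_⟩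
      · intro h
        have := Int.le_of_dvd (by norm_num) h
        omega
      · intro h4
        have h5 : (l : ℤ) ∣ 3 * ((m : ℤ) ^ 2) := by
          have h6 := dvd_sub h4 h1
          have h7 : k + s * ((m : ℤ) * 2) ^ 2 - (k + s * ((m : ℤ) * 1) ^ 2) =
              s * (3 * (m : ℤ) ^ 2) := by ring
          rw [h7] at h6
          rcases hs with rfl | rfl
          · rwa [one_mul] at h6
          · rw [neg_one_mul] at h6
            exact (dvd_neg.1 h6)
        have h6 : l ∣ 3 * m ^ 2 := by exact_mod_cast h5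
        have h7 : l ∣ 3 * m ^ 2 → False := by
          intro h
          have h8 : m ∣ 6 := by
            simp only [mem_insert, mem_singleton] at hm
            rcases hm with rfl | rfl | rfl | rfl <;> norm_num
          have h9 : l ∣ 3 * 6 ^ 2 := h.trans (mul_dvd_mul_left 3 (pow_dvd_pow_of_dvd h8 2))
          have h10 : (3 * 6 ^ 2 : ℕ) = 2 ^ 2 * 3 ^ 3 := by norm_num
          rw [h10] at h9
          rcases (Nat.Prime.dvd_mul hl).1 h9 with h11 | h11
          · have := (Nat.prime_dvd_prime_iff_eq hl Nat.prime_two).1 (hl.dvd_of_dvd_pow h11)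
            exact hl2 this
          · have := (Nat.prime_dvd_prime_iff_eq hl Nat.prime_three).1 (hl.dvd_of_dvd_pow h11)
            exact hl3 this
        exact h7 h6
    · refine ⟨1, ?_, h1⟩
      intro h
      have := Int.le_of_dvd (by norm_num) h
      omega
  have h2 : k % 2 = 0 ∨ k % 2 = 1 := by omega
  have h3 : (3 : ℤ) ∣ k + s ∨ ¬ (3 : ℤ) ∣ k + s := em _
  rcases h2 with h2 | h2 <;> rcases h3 with h3 | h3
  · refine ⟨3, by simp, key 3 (by simp) ?_ ?_⟩ <;> rcases hs with rfl | rfl <;> norm_num <;> omega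
  · refine ⟨1, by simp, key 1 (by simp) ?_ ?_⟩ <;> rcases hs with rfl | rfl <;> norm_num <;> omega
  · refine ⟨6, by simp, key 6 (by simp) ?_ ?_⟩ <;> rcases hs with rfl | rfl <;> norm_num <;> omega
  · refine ⟨2, by simp, key 2 (by simp) ?_ ?_⟩ <;> rcases hs with rfl | rfl <;> norm_num <;> omega

open Classical in
/-- the exceptional constant terms for one multiplier and one sign -/
noncomputable def bad (P : Set ℕ) (K : ℕ) (i : ℤ × ℕ) (c : ℝ) (x : ℕ) : Finset (Fin 1 → ℕ) :=
  (Fintype.piFinset (fun _ : Fin 1 => Icc 1 (K * x ^ 2))).filter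
    (fun k => Pool.Agent.TH882.KS.LocV (fun _ => i.1) (fun _ => gm i.2) k ∧
      ((Pool.Agent.V1137.Unav.Arg P (fun _ => i.1) (fun _ => gm i.2) x k).card : ℝ) <
        c * (x / Real.log x ^ (1 + 1)))

/-- **Prime values of `n ^ 2 + a` at multiples of primes from a set which meets all short clusters of
primes.** Let `P` be a set which, for some `M` and `ε > 0`, contains a prime from every interval
`[u, v]`, `v ≤ u + ε log u`, `u` large, with at least `M` primes. For all `K` and `κ > 0` there is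
`c > 0` such that for all large `x` and for all integers `a` with `|a| ≤ K x ^ 2`, with at most
`κ x ^ 2` exceptions, there is an `m ∈ {1, 2, 3, 6}` such that `|(m p) ^ 2 + a|` is prime for at
least `c x / (log x) ^ 2` primes `p ≤ x` in `P`. -/
theorem result (P : Set ℕ) (hP : MeetsClusters P) (K : ℕ) (κ : ℝ) (hκ : 0 < κ) :
    ∃ c : ℝ, 0 < c ∧ ∀ᶠ x : ℕ in atTop, ((exceptions P c K x).card : ℝ) ≤ κ * (x : ℝ) ^ 2 := by
  classical
  obtain ⟨M, ε, hε, hP⟩ := hP
  have hmost := Pool.Agent.V1137.Unav.PS_most M ε hε P hP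
  set S : Finset (ℤ × ℕ) := ({1, -1} : Finset ℤ) ×ˢ ({1, 2, 3, 6} : Finset ℕ) with hS
  have hScard : S.card = 8 := by
    rw [hS, card_product]
    decide
  obtain ⟨c, hc, x₀, h⟩ := Pool.Agent.V1137.Unav.common S
    (fun i c x => ((bad P K i c x).card : ℝ) ≤ κ / 9 * (x : ℝ) ^ 2) (by
      intro i c c' x hcc h
      refine le_trans ?_ h
      apply Nat.cast_le.2
      apply card_le_card
      intro k hk
      unfold bad at hk ⊢
      rw [mem_filter] at hk ⊢
      refine ⟨hk.1, hk.2.1, lt_of_lt_of_le hk.2.2 ?_⟩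
      apply mul_le_mul_of_nonneg_right hcc
      positivity) (by
      intro i hi
      rw [hS, mem_product] at hi
      have h1 : i.1 = 1 ∨ i.1 = -1 := by simpa using hi.1
      have h2 : 0 < i.2 := by
        have := hi.2
        simp only [mem_insert, mem_singleton] at this
        omega
      obtain ⟨c, hc, x₀, h⟩ := Pool.Agent.V1137.Unav.sys_pm (fun _ : Fin 1 => i.1) (fun _ => h1)
        (fun _ => gm i.2) (fun _ => by rw [gm_deg i.2 h2]; norm_num) (fun _ => gm_lead i.2 h2) P
        hmost K (κ / 9) (by positivity)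
      refine ⟨c, hc, x₀, fun x hx => ?_⟩
      have h3 := h x hx
      rw [Fin.prod_univ_one, gm_deg i.2 h2] at h3
      exact h3)
  refine ⟨c, hc, ?_⟩
  rw [eventually_atTop]
  refine ⟨max x₀ (⌈9 / κ⌉₊ + 1), fun x hx => ?_⟩
  have hx0 : x₀ ≤ x := (le_max_left _ _).trans hx
  have hx1 : ⌈9 / κ⌉₊ + 1 ≤ x := (le_max_right _ _).trans hx
  have hb := h x hx0
  have hsub : exceptions P c K x ⊆ insert 0 (S.biUnion (fun i =>
      (bad P K i c x).image (fun k => i.1 * (k 0 : ℤ)))) := by
    intro a ha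
    unfold exceptions at ha
    rw [mem_filter, mem_Icc] at ha
    obtain ⟨⟨ha1, ha2⟩, ha3⟩ := ha
    rw [mem_insert]
    by_cases ha0 : a = 0
    · exact Or.inl ha0
    right
    obtain ⟨s, hs, k, hk, hak⟩ : ∃ s : ℤ, (s = 1 ∨ s = -1) ∧ ∃ k : ℕ, 1 ≤ k ∧ a = s * k := by
      rcases lt_or_gt_of_ne ha0 with h0 | h0
      · exact ⟨-1, Or.inr rfl, a.natAbs, by omega, by omega⟩
      · exact ⟨1, Or.inl rfl, a.natAbs, by omega, by omega⟩
    obtain ⟨m, hm, hloc⟩ := exists_mult s k hs
    have hm0 : 0 < m := by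
      simp only [mem_insert, mem_singleton] at hm
      omega
    rw [mem_biUnion]
    refine ⟨(s, m), ?_, ?_⟩
    · rw [hS, mem_product]
      refine ⟨?_, hm⟩
      rcases hs with rfl | rfl <;> simp
    rw [mem_image]
    refine ⟨fun _ => k, ?_, by simp only; exact hak.symm⟩
    unfold bad
    rw [mem_filter, Fintype.mem_piFinset]
    refine ⟨fun j => ?_, ?_, ?_⟩
    · rw [mem_Icc]
      refine ⟨hk, ?_⟩
      rcases hs with rfl | rfl
      · have : (k : ℤ) ≤ ((K * x ^ 2 : ℕ) : ℤ) := by linarith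
        exact_mod_cast this
      · have : (k : ℤ) ≤ ((K * x ^ 2 : ℕ) : ℤ) := by linarith
        exact_mod_cast this
    · intro l hl
      obtain ⟨y, hy1, hy2⟩ := hloc l hl
      refine ⟨y, hy1, fun j => ?_⟩
      simp only
      rw [gm_eval]
      exact hy2
    · refine lt_of_le_of_lt ?_ (ha3 m hm)
      apply Nat.cast_le.2
      apply card_le_card
      intro n hn
      unfold Pool.Agent.V1137.Unav.Arg at hn
      unfold arguments
      rw [mem_filter] at hn ⊢
      refine ⟨hn.1, hn.2.1, hn.2.2.1, ?_⟩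
      have h4 := hn.2.2.2 0
      simp only at h4
      rw [gm_eval] at h4
      have h5 : ((k : ℤ) + s * ((m : ℤ) * n) ^ 2).toNat = (((m : ℤ) * n) ^ 2 + a).natAbs := by
        have h6 : 0 < ((k : ℤ) + s * ((m : ℤ) * n) ^ 2).toNat := h4.pos
        rw [hak]
        rcases hs with rfl | rfl
        · rw [one_mul] at h6 ⊢
          rw [one_mul]
          omega
        · rw [neg_one_mul] at h6 ⊢
          rw [neg_one_mul]
          omega
      rw [h5] at h4
      exact h4
  have h1 := (card_le_card hsub).trans (card_insert_le _ _)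
  have h2 : ((S.biUnion (fun i => (bad P K i c x).image (fun k => i.1 * (k 0 : ℤ)))).card : ℝ) ≤
      8 * (κ / 9 * (x : ℝ) ^ 2) := by
    calc ((S.biUnion (fun i => (bad P K i c x).image (fun k => i.1 * (k 0 : ℤ)))).card : ℝ) ≤
        ((∑ i ∈ S, ((bad P K i c x).image (fun k => i.1 * (k 0 : ℤ))).card : ℕ) : ℝ) := by
          exact_mod_cast card_biUnion_le
      _ = ∑ i ∈ S, (((bad P K i c x).image (fun k => i.1 * (k 0 : ℤ))).card : ℝ) := by
          push_cast; rfl
      _ ≤ ∑ _i ∈ S, (κ / 9 * (x : ℝ) ^ 2) := by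
          apply sum_le_sum
          intro i hi
          refine le_trans ?_ (hb i hi)
          exact_mod_cast card_image_le
      _ = 8 * (κ / 9 * (x : ℝ) ^ 2) := by
          rw [sum_const, hScard, nsmul_eq_mul]
          norm_num
  have h3 : ((exceptions P c K x).card : ℝ) ≤
      ((S.biUnion (fun i => (bad P K i c x).image (fun k => i.1 * (k 0 : ℤ)))).card : ℝ) + 1 := by
    exact_mod_cast h1
  have h4 : 1 ≤ κ / 9 * (x : ℝ) ^ 2 := by
    have e1 : 9 / κ ≤ x := by
      have : (⌈9 / κ⌉₊ : ℝ) ≤ x := by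
        have : ⌈9 / κ⌉₊ ≤ x := by omega
        exact_mod_cast this
      exact (Nat.le_ceil _).trans this
    rw [div_le_iff₀ hκ] at e1
    have e2 : (1 : ℝ) ≤ x := by
      have : 1 ≤ x := by omega
      exact_mod_cast this
    nlinarith
  linarith

end Pool.Agent.Results.MP_391708_nt.UnavoidableArguments
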